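import Mathlib

set_option autoImplicit false

namespace Pool.Agent.Results.MP_a33b01_co.Saturation

open Finset

variable {V : Type*} [DecidableEq V]

/-- `Removes G S f l`: some sequence of legal operations `Del` and `DelSave` removes every vertex
of the subgraph of `G` induced on the finite set `S`, starting from the function `f` on `S`, and
`l` is the list of the availabilities of its operations, in order. In both constructors `f'` is
the new function on the remaining vertices; that its values are natural numbers is the legality
condition that no value becomes negative. -/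
inductive Removes (G : SimpleGraph V) : Finset V → (V → ℕ) → List ℕ → Prop
  | nil (f : V → ℕ) : Removes G ∅ f []
  | del {S : Finset V} {f f' : V → ℕ} {v : V} {l : List ℕ} (hv : v ∈ S)
      (hadj : ∀ u ∈ S.erase v, G.Adj v u → f u = f' u + 1)
      (hnot : ∀ u ∈ S.erase v, ¬ G.Adj v u → f u = f' u)
      (hrest : Removes G (S.erase v) f' l) :
      Removes G S f ((f v + 1) :: l)
  | delSave {S : Finset V} {f f' : V → ℕ} {v w : V} {l : List ℕ} (hv : v ∈ S) (hw : w ∈ S)
      (hvw : G.Adj v w) (hlt : f w < f v)
      (hadj : ∀ u ∈ S.erase v, u ≠ w → G.Adj v u → f u = f' u + 1)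
      (hnot : ∀ u ∈ S.erase v, (u = w ∨ ¬ G.Adj v u) → f u = f' u)
      (hrest : Removes G (S.erase v) f' l) :
      Removes G S f ((f v - f w) :: l)

/-- The average availability: the geometric mean of a list of availabilities. -/
noncomputable def avg (l : List ℕ) : ℝ := (l.prod : ℝ) ^ ((1 : ℝ) / l.length)

lemma Removes.congr {G : SimpleGraph V} {S : Finset V} {f : V → ℕ} {l : List ℕ}
    (h : Removes G S f l) {g : V → ℕ} (hfg : ∀ u ∈ S, f u = g u) : Removes G S g l := by
  cases h with
  | nil => exact Removes.nil g
  | @del _ _ f' v l hv hadj hnot hrest =>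
    rw [hfg v hv]
    refine Removes.del (f' := f') hv ?_ ?_ hrest
    · intro u hu ha
      rw [← hfg u (mem_of_mem_erase hu)]
      exact hadj u hu ha
    · intro u hu ha
      rw [← hfg u (mem_of_mem_erase hu)]
      exact hnot u hu ha
  | @delSave _ _ f' v w l hv hw hvw hlt hadj hnot hrest =>
    rw [hfg v hv, hfg w hw]
    rw [hfg v hv, hfg w hw] at hlt
    refine Removes.delSave (f' := f') hv hw hvw hlt ?_ ?_ hrest
    · intro u hu hne ha
      rw [← hfg u (mem_of_mem_erase hu)]
      exact hadj u hu hne ha
    · intro u hu ha
      rw [← hfg u (mem_of_mem_erase hu)]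
      exact hnot u hu ha

lemma Removes.length {G : SimpleGraph V} {S : Finset V} {f : V → ℕ} {l : List ℕ}
    (h : Removes G S f l) : l.length = S.card := by
  induction h with
  | nil f => simp
  | @del S f f' v l hv hadj hnot hrest ih =>
    rw [List.length_cons, ih, card_erase_of_mem hv]
    have := card_pos.mpr ⟨v, hv⟩
    omega
  | @delSave S f f' v w l hv hw hvw hlt hadj hnot hrest ih =>
    rw [List.length_cons, ih, card_erase_of_mem hv]
    have := card_pos.mpr ⟨v, hv⟩
    omega

lemma Removes.one_le_prod {G : SimpleGraph V} {S : Finset V} {f : V → ℕ} {l : List ℕ}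
    (h : Removes G S f l) : 1 ≤ l.prod := by
  induction h with
  | nil f => simp
  | @del S f f' v l hv hadj hnot hrest ih =>
    rw [List.prod_cons]
    exact one_le_mul (Nat.succ_le_of_lt (Nat.succ_pos _)) ih
  | @delSave S f f' v w l hv hw hvw hlt hadj hnot hrest ih =>
    rw [List.prod_cons]
    exact one_le_mul (by omega) ih

lemma pow_aux1 (L k : ℕ) (h : k ≤ L + 1) : (L + 2) ^ k ≤ (k + 1) * (L + 1) ^ k := by
  induction k with
  | zero => simp
  | succ k ih =>
    have ih' := ih (by omega)
    calc (L + 2) ^ (k + 1) = (L + 2) * (L + 2) ^ k := by ring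
      _ ≤ (L + 2) * ((k + 1) * (L + 1) ^ k) := Nat.mul_le_mul_left _ ih'
      _ = ((L + 2) * (k + 1)) * (L + 1) ^ k := by ring
      _ ≤ ((k + 2) * (L + 1)) * (L + 1) ^ k := by
          refine Nat.mul_le_mul_right _ ?_
          nlinarith
      _ = (k + 1 + 1) * (L + 1) ^ (k + 1) := by ring

lemma pow_aux (d L : ℕ) (h : d ≤ L) : (L + 1) ^ d ≤ (d + 1) ^ L := by
  induction L, h using Nat.le_induction with
  | base => exact le_refl _
  | succ L hL ih =>
    calc (L + 1 + 1) ^ d ≤ (d + 1) * (L + 1) ^ d := pow_aux1 L d (by omega)
      _ ≤ (d + 1) * (d + 1) ^ L := Nat.mul_le_mul_left _ ih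
      _ = (d + 1) ^ (L + 1) := by ring

section sim

variable (G H : SimpleGraph V) [DecidableRel G.Adj] [DecidableRel H.Adj]

/-- Twice the number of units of slack inside `S`. -/
def mu (S : Finset V) (f f' : V → ℕ) : ℕ :=
  ∑ u ∈ S, ((S.filter (H.Adj u)).card + 2 * (f u - f' u))

lemma card_filter_erase (K : SimpleGraph V) [DecidableRel K.Adj] {S : Finset V} {v : V}
    (hv : v ∈ S) (u : V) :
    (S.filter (K.Adj u)).card = ((S.erase v).filter (K.Adj u)).card +
      (if K.Adj v u then 1 else 0) := by
  rw [filter_erase]
  by_cases h : K.Adj v u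
  · rw [if_pos h, card_erase_of_mem (mem_filter.mpr ⟨hv, h.symm⟩)]
    have := card_pos.mpr ⟨v, mem_filter.mpr ⟨hv, h.symm⟩⟩
    omega
  · rw [if_neg h, erase_eq_of_notMem]
    · rfl
    · intro h'
      exact h (mem_filter.mp h').2.symm

lemma mu_step {S : Finset V} {v : V} (hv : v ∈ S) (f f' f1 f2 c : V → ℕ) (k : ℕ)
    (hc : ∑ u ∈ S.erase v, c u = 2 * k)
    (h : ∀ u ∈ S.erase v, 2 * (f1 u - f2 u) + c u =
      2 * (f u - f' u) + (if H.Adj v u then 2 else 0)) :
    mu H S f f' = mu H (S.erase v) f1 f2 + 2 * ((f v - f' v) + k) := by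
  have h1 : mu H S f f' = ((S.filter (H.Adj v)).card + 2 * (f v - f' v)) +
      ∑ u ∈ S.erase v, ((S.filter (H.Adj u)).card + 2 * (f u - f' u)) := by
    rw [mu, ← add_sum_erase _ _ hv]
  have h2 : (S.filter (H.Adj v)).card = ∑ u ∈ S.erase v, (if H.Adj v u then 1 else 0) := by
    rw [← card_filter, filter_erase, erase_eq_of_notMem]
    intro h'
    exact H.loopless.irrefl v (mem_filter.mp h').2
  have h3 : ∀ u ∈ S.erase v, ((S.filter (H.Adj u)).card + 2 * (f u - f' u)) +
      (if H.Adj v u then 1 else 0) =
      (((S.erase v).filter (H.Adj u)).card + 2 * (f1 u - f2 u)) + c u := by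
    intro u hu
    have h4 := card_filter_erase H hv u
    have h5 := h u hu
    by_cases hh : H.Adj v u
    · simp only [if_pos hh] at h4 h5 ⊢
      omega
    · simp only [if_neg hh] at h4 h5 ⊢
      omega
  have h6 := sum_congr rfl h3
  rw [sum_add_distrib, sum_add_distrib (f := fun u => ((S.erase v).filter (H.Adj u)).card +
    2 * (f1 u - f2 u))] at h6
  rw [h1, h2]
  have h7 : mu H (S.erase v) f1 f2 =
    ∑ u ∈ S.erase v, (((S.erase v).filter (H.Adj u)).card + 2 * (f1 u - f2 u)) := rfl
  rw [h7]
  rw [hc] at h6
  omega

lemma finish {L m d a : ℕ} {l lX : List ℕ} (hd : d ≤ L) (ha : d + 1 ≤ a)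
    (h : (L + 1) ^ m * lX.prod ^ (2 * L) ≤ l.prod ^ (2 * L)) :
    (L + 1) ^ (m + 2 * d) * lX.prod ^ (2 * L) ≤ ((a :: l).prod) ^ (2 * L) := by
  have h1 : (L + 1) ^ (2 * d) ≤ a ^ (2 * L) := by
    calc (L + 1) ^ (2 * d) = ((L + 1) ^ d) ^ 2 := by rw [← pow_mul, mul_comm]
      _ ≤ ((d + 1) ^ L) ^ 2 := Nat.pow_le_pow_left (pow_aux d L hd) 2
      _ = (d + 1) ^ (2 * L) := by rw [← pow_mul, mul_comm]
      _ ≤ a ^ (2 * L) := Nat.pow_le_pow_left ha _
  calc (L + 1) ^ (m + 2 * d) * lX.prod ^ (2 * L)
      = (L + 1) ^ (2 * d) * ((L + 1) ^ m * lX.prod ^ (2 * L)) := by rw [pow_add]; ring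
    _ ≤ a ^ (2 * L) * l.prod ^ (2 * L) := Nat.mul_le_mul h1 h
    _ = ((a :: l).prod) ^ (2 * L) := by rw [List.prod_cons, mul_pow]

theorem simulate (hGH : ∀ u v, G.Adj u v → ¬ H.Adj u v) (X : Finset V) (g : V → ℕ)
    (lX : List ℕ) (hX : Removes G X g lX) (L : ℕ) {S : Finset V} {f' : V → ℕ} {l' : List ℕ}
    (h : Removes (G ⊔ H) S f' l') :
    Disjoint S X → ∀ f : V → ℕ, (∀ v ∈ S, f' v ≤ f v) →
      (∀ x ∈ X, f x = g x + (S.filter (G.Adj x)).card) →
      (∀ v ∈ S, (S.filter (H.Adj v)).card + (f v - f' v) + 1 ≤ L) →
      ∃ l, Removes G (S ∪ X) f l ∧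
        (L + 1) ^ (mu H S f f') * lX.prod ^ (2 * L) ≤ l.prod ^ (2 * L) := by
  induction h with
  | nil f' =>
    intro _ f _ hx _
    refine ⟨lX, ?_, ?_⟩
    · rw [empty_union]
      exact hX.congr fun u hu => by rw [hx u hu]; simp
    · simp [mu]
  | @del S f' f2 v l' hv hadj hnot hrest ih =>
    intro hd f hf hx hL
    have hvX : v ∉ X := disjoint_left.mp hd hv
    have hd' : Disjoint (S.erase v) X := hd.mono_left (erase_subset _ _)
    have hun : (S ∪ X).erase v = S.erase v ∪ X := by
      rw [erase_union_distrib, erase_eq_of_notMem hvX]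
    let f1 : V → ℕ := fun u => if G.Adj v u then f u - 1 else f u
    have key : ∀ u ∈ S.erase v, f2 u ≤ f1 u ∧
        2 * (f1 u - f2 u) + 0 = 2 * (f u - f' u) + (if H.Adj v u then 2 else 0) ∧
        (G.Adj v u → 1 ≤ f u) := by
      intro u hu
      have hfu := hf u (mem_of_mem_erase hu)
      by_cases hG : G.Adj v u
      · have hH := hGH v u hG
        have h1 := hadj u hu (Or.inl hG)
        simp only [f1, if_pos hG, if_neg hH]
        refine ⟨by omega, by omega, fun _ => by omega⟩
      · by_cases hH : H.Adj v u
        · have h1 := hadj u hu (Or.inr hH)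
          simp only [f1, if_neg hG, if_pos hH]
          exact ⟨by omega, by omega, fun h => (hG h).elim⟩
        · have h1 := hnot u hu (by
            rintro (h | h)
            · exact hG h
            · exact hH h)
          simp only [f1, if_neg hG, if_neg hH]
          exact ⟨by omega, by omega, fun h => (hG h).elim⟩
    obtain ⟨l, hl, hprod⟩ := ih hd' f1 (fun u hu => (key u hu).1) (by
      intro x hx'
      have h1 := hx x hx'
      have h2 := card_filter_erase G hv x
      by_cases hG : G.Adj v x
      · simp only [f1, if_pos hG] at h2 ⊢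
        omega
      · simp only [f1, if_neg hG] at h2 ⊢
        omega) (by
      intro u hu
      have h1 := hL u (mem_of_mem_erase hu)
      have h2 := card_filter_erase H hv u
      have h3 := (key u hu).2.1
      by_cases hH : H.Adj v u
      · simp only [if_pos hH] at h2 h3
        omega
      · simp only [if_neg hH] at h2 h3
        omega)
    refine ⟨(f v + 1) :: l, ?_, ?_⟩
    · refine Removes.del (f' := f1) (mem_union_left _ hv) ?_ ?_ (by rw [hun]; exact hl)
      · intro u hu hG
        rw [hun, mem_union] at hu
        rcases hu with hu | hu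
        · have := (key u hu).2.2 hG
          simp only [f1, if_pos hG]
          omega
        · have h1 := hx u hu
          have h2 := card_filter_erase G hv u
          rw [if_pos hG] at h2
          simp only [f1, if_pos hG]
          omega
      · intro u _ hG
        simp only [f1, if_neg hG]
    · have hmu := mu_step H hv f f' f1 f2 (fun _ => 0) 0 (by simp)
        (fun u hu => (key u hu).2.1)
      rw [hmu]
      have h1 := hL v hv
      have h2 := hf v hv
      exact finish (by omega) (by omega) hprod
  | @delSave S f' f2 v w l' hv hw hvw hlt hadj hnot hrest ih =>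
    intro hd f hf hx hL
    have hvX : v ∉ X := disjoint_left.mp hd hv
    have hd' : Disjoint (S.erase v) X := hd.mono_left (erase_subset _ _)
    have hun : (S ∪ X).erase v = S.erase v ∪ X := by
      rw [erase_union_distrib, erase_eq_of_notMem hvX]
    have hwv : w ≠ v := hvw.ne'
    have hwS : w ∈ S.erase v := mem_erase.mpr ⟨hwv, hw⟩
    have hwX : w ∉ X := disjoint_left.mp hd hw
    have hfw := hf w hw
    have hfv := hf v hv
    have hw0 : f' w = f2 w := hnot w hwS (Or.inl rfl)
    by_cases hcase : G.Adj v w ∧ f w = f' w
    · -- the saved neighbour has no slack: save it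
      obtain ⟨hGw, hfw0⟩ := hcase
      let f1 : V → ℕ := fun u => if G.Adj v u ∧ u ≠ w then f u - 1 else f u
      have key : ∀ u ∈ S.erase v, f2 u ≤ f1 u ∧
          2 * (f1 u - f2 u) + 0 = 2 * (f u - f' u) + (if H.Adj v u then 2 else 0) ∧
          (G.Adj v u → u ≠ w → 1 ≤ f u) := by
        intro u hu
        have hfu := hf u (mem_of_mem_erase hu)
        by_cases huw : u = w
        · subst huw
          have hH := hGH v u hGw
          simp only [f1, if_neg hH, ne_eq, not_true_eq_false, and_false, if_false]
          exact ⟨by omega, by omega, fun _ h => h.elim⟩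
        · by_cases hG : G.Adj v u
          · have hH := hGH v u hG
            have h1 := hadj u hu huw (Or.inl hG)
            have hcond : G.Adj v u ∧ u ≠ w := ⟨hG, huw⟩
            simp only [f1, if_pos hcond, if_neg hH]
            refine ⟨by omega, by omega, fun _ _ => by omega⟩
          · have hcond : ¬ (G.Adj v u ∧ u ≠ w) := fun h => hG h.1
            by_cases hH : H.Adj v u
            · have h1 := hadj u hu huw (Or.inr hH)
              simp only [f1, if_neg hcond, if_pos hH]
              exact ⟨by omega, by omega, fun h => (hG h).elim⟩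
            · have h1 := hnot u hu (Or.inr (by
                rintro (h | h)
                · exact hG h
                · exact hH h))
              simp only [f1, if_neg hcond, if_neg hH]
              exact ⟨by omega, by omega, fun h => (hG h).elim⟩
      obtain ⟨l, hl, hprod⟩ := ih hd' f1 (fun u hu => (key u hu).1) (by
        intro x hx'
        have h1 := hx x hx'
        have h2 := card_filter_erase G hv x
        have hxw : x ≠ w := fun h => hwX (h ▸ hx')
        by_cases hG : G.Adj v x
        · have hcond : G.Adj v x ∧ x ≠ w := ⟨hG, hxw⟩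
          simp only [f1, if_pos hcond]
          rw [if_pos hG] at h2
          omega
        · have hcond : ¬ (G.Adj v x ∧ x ≠ w) := fun h => hG h.1
          simp only [f1, if_neg hcond]
          rw [if_neg hG] at h2
          omega) (by
        intro u hu
        have h1 := hL u (mem_of_mem_erase hu)
        have h2 := card_filter_erase H hv u
        have h3 := (key u hu).2.1
        by_cases hH : H.Adj v u
        · simp only [if_pos hH] at h2 h3
          omega
        · simp only [if_neg hH] at h2 h3
          omega)
      refine ⟨(f v - f w) :: l, ?_, ?_⟩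
      · refine Removes.delSave (f' := f1) (mem_union_left _ hv) (mem_union_left _ hw) hGw
          (by omega) ?_ ?_ (by rw [hun]; exact hl)
        · intro u hu huw hG
          have hcond : G.Adj v u ∧ u ≠ w := ⟨hG, huw⟩
          rw [hun, mem_union] at hu
          rcases hu with hu | hu
          · have := (key u hu).2.2 hG huw
            simp only [f1, if_pos hcond]
            omega
          · have h1 := hx u hu
            have h2 := card_filter_erase G hv u
            rw [if_pos hG] at h2
            simp only [f1, if_pos hcond]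
            omega
        · intro u _ hG
          have hcond : ¬ (G.Adj v u ∧ u ≠ w) := by
            rintro ⟨h1, h2⟩
            rcases hG with h | h
            · exact h2 h
            · exact h h1
          simp only [f1, if_neg hcond]
      · have hmu := mu_step H hv f f' f1 f2 (fun _ => 0) 0 (by simp)
          (fun u hu => (key u hu).2.1)
        rw [hmu]
        have h1 := hL v hv
        exact finish (by omega) (by omega) hprod
    · -- delete `v` without saving
      let f1 : V → ℕ := fun u => if G.Adj v u then f u - 1 else f u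
      have key : ∀ u ∈ S.erase v, f2 u ≤ f1 u ∧
          2 * (f1 u - f2 u) + (if u = w then 2 else 0) =
            2 * (f u - f' u) + (if H.Adj v u then 2 else 0) ∧
          (G.Adj v u → 1 ≤ f u) := by
        intro u hu
        have hfu := hf u (mem_of_mem_erase hu)
        by_cases huw : u = w
        · subst huw
          by_cases hG : G.Adj v u
          · have hH := hGH v u hG
            have hne : f u ≠ f' u := fun h => hcase ⟨hG, h⟩
            simp only [f1, if_pos hG, if_neg hH, if_true]
            refine ⟨by omega, by omega, fun _ => by omega⟩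
          · have hH : H.Adj v u := by
              rcases hvw with h | h
              · exact absurd h hG
              · exact h
            simp only [f1, if_neg hG, if_pos hH, if_true]
            exact ⟨by omega, by omega, fun h => (hG h).elim⟩
        · by_cases hG : G.Adj v u
          · have hH := hGH v u hG
            have h1 := hadj u hu huw (Or.inl hG)
            simp only [f1, if_pos hG, if_neg hH, if_neg huw]
            refine ⟨by omega, by omega, fun _ => by omega⟩
          · by_cases hH : H.Adj v u
            · have h1 := hadj u hu huw (Or.inr hH)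
              simp only [f1, if_neg hG, if_pos hH, if_neg huw]
              exact ⟨by omega, by omega, fun h => (hG h).elim⟩
            · have h1 := hnot u hu (Or.inr (by
                rintro (h | h)
                · exact hG h
                · exact hH h))
              simp only [f1, if_neg hG, if_neg hH, if_neg huw]
              exact ⟨by omega, by omega, fun h => (hG h).elim⟩
      obtain ⟨l, hl, hprod⟩ := ih hd' f1 (fun u hu => (key u hu).1) (by
        intro x hx'
        have h1 := hx x hx'
        have h2 := card_filter_erase G hv x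
        by_cases hG : G.Adj v x
        · simp only [f1, if_pos hG] at h2 ⊢
          omega
        · simp only [f1, if_neg hG] at h2 ⊢
          omega) (by
        intro u hu
        have h1 := hL u (mem_of_mem_erase hu)
        have h2 := card_filter_erase H hv u
        have h3 := (key u hu).2.1
        by_cases hH : H.Adj v u
        · simp only [if_pos hH] at h2 h3
          omega
        · simp only [if_neg hH] at h2 h3
          omega)
      refine ⟨(f v + 1) :: l, ?_, ?_⟩
      · refine Removes.del (f' := f1) (mem_union_left _ hv) ?_ ?_ (by rw [hun]; exact hl)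
        · intro u hu hG
          rw [hun, mem_union] at hu
          rcases hu with hu | hu
          · have := (key u hu).2.2 hG
            simp only [f1, if_pos hG]
            omega
          · have h1 := hx u hu
            have h2 := card_filter_erase G hv u
            rw [if_pos hG] at h2
            simp only [f1, if_pos hG]
            omega
        · intro u _ hG
          simp only [f1, if_neg hG]
      · have hmu := mu_step H hv f f' f1 f2 (fun u => if u = w then 2 else 0) 1 (by
          rw [sum_ite_eq' (S.erase v) w, if_pos hwS]) (fun u hu => (key u hu).2.1)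
        rw [hmu]
        have h1 := hL v hv
        exact finish (by omega) (by omega) hprod

lemma mu_compl [Fintype V] (X : Finset V) (hHX : ∀ x ∈ X, ∀ u, ¬ H.Adj x u) (f f' : V → ℕ) :
    mu H Xᶜ f f' = 2 * (H.edgeFinset.card + ∑ v ∈ Xᶜ, (f v - f' v)) := by
  have h1 : ∀ u ∈ Xᶜ, (Xᶜ.filter (H.Adj u)).card = H.degree u := by
    intro u _
    rw [← H.card_neighborFinset_eq_degree]
    congr 1
    ext w
    rw [mem_filter, mem_compl, SimpleGraph.mem_neighborFinset]
    exact ⟨fun h => h.2, fun h => ⟨fun hw => hHX w hw u h.symm, h⟩⟩
  have h2 : ∑ u ∈ X, H.degree u = 0 := by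
    refine sum_eq_zero fun x hx => ?_
    rw [← H.card_neighborFinset_eq_degree, card_eq_zero, eq_empty_iff_forall_notMem]
    intro w hw
    rw [SimpleGraph.mem_neighborFinset] at hw
    exact hHX x hx w hw
  have h3 := H.sum_degrees_eq_twice_card_edges
  rw [← sum_compl_add_sum X, h2, add_zero] at h3
  rw [mu, sum_add_distrib, sum_congr rfl h1, h3, ← mul_sum]
  ring

end sim

/-- **Saturation theorem.** Let `H` be a set of edges to be added to the finite graph `G`, away
from a set `X` of vertices.
Suppose that after deleting `X` and adding `H` all vertices can be removed legally, starting from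
a function `f' ≤ f`, and that `X` can be removed last: all vertices of `G[X]` can be removed
legally, starting from `g = f - (number of neighbours outside X)`, with availabilities `lX`.
If `deg_H v + (f v - f' v) + 1 ≤ L` for all `v` outside `X`, then all vertices of `G` can be
removed legally, starting from `f`, with average availability at least
`((L + 1) ^ (U / L) * ∏ lX) ^ (1 / |V|)`, where `U = |E(H)| + ∑ (f v - f' v)`. -/
theorem result {V : Type*} [Fintype V] [DecidableEq V] [Nonempty V] (G H : SimpleGraph V)
    [DecidableRel G.Adj] [DecidableRel H.Adj] (X : Finset V) (f f' g : V → ℕ) (L : ℕ)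
    (l' lX : List ℕ) (hGH : ∀ u v, G.Adj u v → ¬ H.Adj u v)
    (hHX : ∀ x ∈ X, ∀ u, ¬ H.Adj x u)
    (hle : ∀ v ∉ X, f' v ≤ f v)
    (hwd : Removes (G ⊔ H) Xᶜ f' l')
    (hg : ∀ x ∈ X, f x = g x + (Xᶜ.filter (G.Adj x)).card)
    (hX : Removes G X g lX)
    (hL1 : 1 ≤ L)
    (hL : ∀ v ∉ X, H.degree v + (f v - f' v) + 1 ≤ L) :
    ∃ l : List ℕ, Removes G Finset.univ f l ∧
      (((L : ℝ) + 1) ^
        (((H.edgeFinset.card + ∑ v ∈ Xᶜ, (f v - f' v) : ℕ) : ℝ) / (L : ℝ)) *
          (lX.prod : ℝ)) ^ ((1 : ℝ) / (Fintype.card V : ℝ)) ≤ avg l := by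
  classical
  obtain ⟨l, hl, hprod⟩ := simulate G H hGH X g lX hX L hwd
    (disjoint_compl_left) f (fun v hv => hle v (mem_compl.mp hv)) hg (by
      intro v hv
      have h1 := hL v (mem_compl.mp hv)
      have h2 : (Xᶜ.filter (H.Adj v)).card ≤ H.degree v := by
        rw [← H.card_neighborFinset_eq_degree]
        refine card_le_card fun w hw => ?_
        rw [SimpleGraph.mem_neighborFinset]
        exact (mem_filter.mp hw).2
      omega)
  rw [mu_compl H X hHX] at hprod
  have hun : Xᶜ ∪ X = Finset.univ := by
    rw [union_comm]; exact union_compl X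
  rw [hun] at hl
  refine ⟨l, hl, ?_⟩
  set U : ℕ := H.edgeFinset.card + ∑ v ∈ Xᶜ, (f v - f' v) with hU
  have hlen : l.length = Fintype.card V := by
    rw [hl.length, card_univ]
  rw [avg, hlen]
  refine Real.rpow_le_rpow (by positivity) ?_ (by positivity)
  have hreal : ((L : ℝ) + 1) ^ (2 * U) * (lX.prod : ℝ) ^ (2 * L) ≤ (l.prod : ℝ) ^ (2 * L) := by
    exact_mod_cast hprod
  have hLpos : (0 : ℝ) < L := by exact_mod_cast hL1
  have h2L : (2 * L : ℕ) ≠ 0 := by omega
  have hbase : (((L : ℝ) + 1) ^ ((U : ℝ) / (L : ℝ)) * (lX.prod : ℝ)) ^ (2 * L) =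
      ((L : ℝ) + 1) ^ (2 * U) * (lX.prod : ℝ) ^ (2 * L) := by
    rw [mul_pow]
    congr 1
    rw [← Real.rpow_natCast, ← Real.rpow_mul (by positivity), ← Real.rpow_natCast]
    congr 1
    push_cast
    field_simp
  rw [← hbase] at hreal
  exact le_of_pow_le_pow_left₀ h2L (by positivity) hreal

end Pool.Agent.Results.MP_a33b01_co.Saturation
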